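import Pool.Agent.Helper16.DIL.Spec

set_option autoImplicit false

namespace Pool.Agent.Helper49.DIL.TRA

open Finset Matrix MeasureTheory Pool.Agent.Helper68K9.SG Pool.Agent.Helper16.DIL

theorem count {J : Type} [Fintype J] [DecidableEq J] (x : J → ℤ) (k N : ℕ) (L B : ℝ) :
    ∑ w : Fin (k + 1) → J, ∑ n ∈ Fintype.piFinset (fun _ : Fin (k + 1) => Icc 1 N),
      ((if Phi x w n = 0 then L else 0) + B) =
    L * (({q : (Fin (k + 1) → J) × (Fin (k + 1) → ℕ) | (∀ i, 1 ≤ q.2 i ∧ q.2 i ≤ N) ∧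
      Phi x q.1 q.2 = 0}.ncard : ℕ) : ℝ) + ((Fintype.card J * N) ^ (k + 1) : ℕ) * B := by
  classical
  have h1 : {q : (Fin (k + 1) → J) × (Fin (k + 1) → ℕ) | (∀ i, 1 ≤ q.2 i ∧ q.2 i ≤ N) ∧
      Phi x q.1 q.2 = 0} = ((((univ : Finset (Fin (k + 1) → J)) ×ˢ
        Fintype.piFinset (fun _ : Fin (k + 1) => Icc 1 N)).filter
          fun q => Phi x q.1 q.2 = 0 : Finset _) : Set _) := by
    ext q
    simp [Fintype.mem_piFinset]
  rw [h1, Set.ncard_coe_finset]
  simp only [sum_add_distrib, sum_const, Fintype.card_piFinset_const, Nat.card_Icc,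
    Nat.add_sub_cancel, nsmul_eq_mul, card_univ, Fintype.card_fun, Fintype.card_fin]
  congr 1
  · rw [← sum_product' (univ : Finset (Fin (k + 1) → J))
      (Fintype.piFinset (fun _ : Fin (k + 1) => Icc 1 N))
      (fun w n => if Phi x w n = 0 then L else 0), ← sum_filter, sum_const, nsmul_eq_mul]
    ring
  · push_cast
    ring

theorem main (hC4 : S_C4) (hG : S_GAP) (hO : S_OSC) : S_TRA := by
  intro J _ _ c x D N a u L hN hx hD hL
  classical
  obtain ⟨k, hk⟩ : ∃ k, 2 ^ (a + 1) = k + 1 :=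
    ⟨2 ^ (a + 1) - 1, by have := Nat.one_le_two_pow (n := a + 1); omega⟩
  have hk2 : 2 * 2 ^ a = k + 1 := by rw [← hk, pow_succ]; ring
  rw [hk]
  have hN0 : (0 : ℝ) < N := by exact_mod_cast hN
  set c0 : (Fin (k + 1) → J) → (Fin (k + 1) → ℕ) → ℝ :=
    fun w n => ∑ i, (c (w i) - c (w (i + 1))) * Real.log (n i) with hc0
  set E : (Fin (k + 1) → J) → (Fin (k + 1) → ℕ) → ℝ → ℂ :=
    fun w n l => Complex.exp ((-(c0 w n + l * Phi x w n) : ℝ) * Complex.I) with hE
  have hpt : ∀ l : ℝ, ((fro ((MM N (fun j => c j + l * x j)) ^ (2 ^ a)) : ℝ) : ℂ) =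
      ∑ w, ∑ n ∈ Fintype.piFinset (fun _ : Fin (k + 1) => Icc 1 N), E w n l := by
    intro l
    rw [← trace_fro (MM_herm N _), hk2, trace_MM]
    refine sum_congr rfl fun w _ => sum_congr rfl fun n _ => ?_
    have e1 : ∑ i, ((c (w i) + l * x (w i)) - (c (w (i + 1)) + l * x (w (i + 1)))) *
        Real.log (n i) = c0 w n + l * Phi x w n := by
      simp only [hc0, Phi]
      rw [mul_sum, ← sum_add_distrib]
      refine sum_congr rfl fun i _ => ?_
      push_cast
      ring
    rw [e1]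
  have hcont : ∀ w n, Continuous (E w n) := by
    intro w n
    exact Complex.continuous_exp.comp ((Complex.continuous_ofReal.comp (by fun_prop)).mul
      continuous_const)
  have hI : ((∫ l in u..(u + L), fro ((MM N (fun j => c j + l * x j)) ^ (2 ^ a)) : ℝ) : ℂ) =
      ∑ w, ∑ n ∈ Fintype.piFinset (fun _ : Fin (k + 1) => Icc 1 N),
        ∫ l in u..(u + L), E w n l := by
    rw [← intervalIntegral.integral_ofReal]
    simp only [hpt]
    rw [intervalIntegral.integral_finset_sum fun w _ =>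
      (continuous_finset_sum _ fun n _ => hcont w n).intervalIntegrable _ _]
    refine sum_congr rfl fun w _ => ?_
    rw [intervalIntegral.integral_finset_sum fun n _ => (hcont w n).intervalIntegrable _ _]
  have hb : ∀ w, ∀ n ∈ Fintype.piFinset (fun _ : Fin (k + 1) => Icc 1 N),
      ‖∫ l in u..(u + L), E w n l‖ ≤
        (if Phi x w n = 0 then L else 0) + 2 * (N : ℝ) ^ ((k + 1) * D) := by
    intro w n hn
    have hB : (0 : ℝ) ≤ 2 * (N : ℝ) ^ ((k + 1) * D) := by positivity
    by_cases h0 : Phi x w n = 0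
    · rw [if_pos h0]
      have h1 : ‖∫ l in u..(u + L), E w n l‖ ≤ 1 * |u + L - u| :=
        intervalIntegral.norm_integral_le_of_norm_le_const fun l _ => by
          rw [hE]
          exact (Complex.norm_exp_ofReal_mul_I _).le
      have h2 : |u + L - u| = L := by rw [add_sub_cancel_left, abs_of_nonneg hL]
      linarith
    · rw [if_neg h0, zero_add]
      refine (hO (c0 w n) (Phi x w n) u L h0 hL).trans ?_
      have h1 := hG J x D k N w n hD (fun i => by
        have := (Fintype.mem_piFinset.1 hn) i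
        rw [mem_Icc] at this
        exact this) h0
      have h3 : (0 : ℝ) < (N : ℝ) ^ ((k + 1) * D) := by positivity
      have h4 : 0 < |Phi x w n| := abs_pos.2 h0
      rw [div_le_iff₀ h3] at h1
      rw [div_le_iff₀ h4]
      nlinarith
  have h1 : (∫ l in u..(u + L), fro ((MM N (fun j => c j + l * x j)) ^ (2 ^ a))) ≤
      ∑ w, ∑ n ∈ Fintype.piFinset (fun _ : Fin (k + 1) => Icc 1 N),
        ((if Phi x w n = 0 then L else 0) + 2 * (N : ℝ) ^ ((k + 1) * D)) := by
    refine (le_abs_self _).trans ?_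
    rw [← Real.norm_eq_abs, ← Complex.norm_real, hI]
    refine (norm_sum_le _ _).trans (sum_le_sum fun w _ => ?_)
    exact (norm_sum_le _ _).trans (sum_le_sum fun n hn => hb w n hn)
  refine h1.trans ?_
  rw [count x k N L]
  have h2 := hC4 J x k N hN hx
  have h3 : (({q : (Fin (k + 1) → J) × (Fin (k + 1) → ℕ) | (∀ i, 1 ≤ q.2 i ∧ q.2 i ≤ N) ∧
      Phi x q.1 q.2 = 0}.ncard : ℕ) : ℝ) ≤ (((k + 1) * (Nat.log 2 N + 1) ^ ((k + 1) * (k + 1)) *
        (N + Fintype.card J) ^ (k + 2) : ℕ) : ℝ) := by exact_mod_cast h2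
  exact add_le_add (mul_le_mul_of_nonneg_left h3 hL) le_rfl

end Pool.Agent.Helper49.DIL.TRA
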